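import Pool.Agent.Helper96.BT.Defs
import Pool.Agent.Helper98.PH.Windows

/-!
# BT, pieces K5, K7, K8: lists of runs; the states at arbitrary cuts
-/

set_option autoImplicit false

namespace Pool.Agent.Helper17.BT

open Finset Pool.Agent.Helper19.NF Pool.Agent.Helper74.NW Pool.Agent.Helper96.BT
open Pool.Agent.Helper96.PH (Det CB opn)

section runs

variable {C X Z : Type} {S : ℕ} {P : NProg C X Z S} {I : C → X}

theorem runL_nil {c : List C} (h : RunL P I [] c) : c = [] := by
  cases h
  rfl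

theorem runL_cons {p : Fin S × ℕ × Fin S} {L : List (Fin S × ℕ × Fin S)} {c : List C} (h : RunL P I (p :: L) c) :
    ∃ c1 c2, c = c1 ++ c2 ∧ P.Run I p.1 c1 p.2.2 ∧ c1.length = p.2.1 ∧ RunL P I L c2 := by
  cases h with
  | cons s t k L c c' h1 h2 h3 => exact ⟨c, c', rfl, h1, h2, h3⟩

theorem runL_mem {L : List (Fin S × ℕ × Fin S)} {c : List C} (h : RunL P I L c) :
    ∀ p ∈ L, ∃ c', P.Run I p.1 c' p.2.2 ∧ c'.length = p.2.1 := by
  induction h with
  | nil => simp
  | cons s t k L c c' h1 h2 _ ih =>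
    intro p hp
    rcases List.mem_cons.1 hp with rfl | hp
    · exact ⟨c, h1, h2⟩
    · exact ih p hp

/-- K5. -/
theorem runL_unique (hP : Det P) {L : List (Fin S × ℕ × Fin S)} {c c' : List C} (h : RunL P I L c)
    (h' : RunL P I L c') : c = c' := by
  induction h generalizing c' with
  | nil => exact (runL_nil h').symm
  | cons s t k L c1 c2 h1 h2 _ ih =>
    obtain ⟨d1, d2, rfl, g1, g2, g3⟩ := runL_cons h'
    rw [ih g3, (Pool.Agent.Helper98.PH.det_aux hP h1 g1 (h2.trans g2.symm)).1]

/-- For a deterministic program the states at arbitrary cuts are determined by the first state. -/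
theorem cuts_unique (hP : Det P) {q : ℕ} {σ σ' : Fin (q + 1) → Fin S} {k : Fin q → ℕ}
    (h : ∀ j, ∃ c, P.Run I (σ j.castSucc) c (σ j.succ) ∧ c.length = k j)
    (h' : ∀ j, ∃ c, P.Run I (σ' j.castSucc) c (σ' j.succ) ∧ c.length = k j) (h0 : σ 0 = σ' 0) : σ = σ' := by
  funext j
  induction j using Fin.induction with
  | zero => exact h0
  | succ j ih =>
    obtain ⟨c, hc, hl⟩ := h j
    obtain ⟨c', hc', hl'⟩ := h' j
    rw [← ih] at hc'
    exact (Pool.Agent.Helper98.PH.det_aux hP hc hc' (hl.trans hl'.symm)).2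

theorem runL_map_mem {q : ℕ} {A : Finset (Fin q)} {f : Fin q → Fin S × ℕ × Fin S} {c : List C}
    (h : RunL P I (((List.finRange q).filter (fun j => j ∈ A)).map f) c) {j : Fin q} (hj : j ∈ A) :
    ∃ c', P.Run I (f j).1 c' (f j).2.2 ∧ c'.length = (f j).2.1 :=
  runL_mem h (f j) (List.mem_map.2 ⟨j, List.mem_filter.2 ⟨List.mem_finRange j, by simpa using hj⟩, rfl⟩)

/-- K6 for arbitrary lengths of the segments. -/
theorem sigma_unique' (hP : Det P) {q : ℕ} {σ σ' : Fin (q + 1) → Fin S} {k : Fin q → ℕ} {A : Finset (Fin q)}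
    {c c' d d' : List C}
    (h : RunL P I (((List.finRange q).filter (fun j => j ∈ A)).map (fun j => (σ j.castSucc, k j, σ j.succ))) c)
    (h' : RunL P I (((List.finRange q).filter (fun j => j ∈ Aᶜ)).map (fun j => (σ j.castSucc, k j, σ j.succ))) c')
    (hd : RunL P I (((List.finRange q).filter (fun j => j ∈ A)).map (fun j => (σ' j.castSucc, k j, σ' j.succ))) d)
    (hd' : RunL P I (((List.finRange q).filter (fun j => j ∈ Aᶜ)).map (fun j => (σ' j.castSucc, k j, σ' j.succ))) d')
    (h0 : σ 0 = σ' 0) : σ = σ' := by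
  refine cuts_unique (I := I) hP (k := k) (fun j => ?_) (fun j => ?_) h0
  · by_cases hj : j ∈ A
    · exact runL_map_mem (f := fun j => (σ j.castSucc, k j, σ j.succ)) h hj
    · exact runL_map_mem (f := fun j => (σ j.castSucc, k j, σ j.succ)) h' (mem_compl.2 hj)
  · by_cases hj : j ∈ A
    · exact runL_map_mem (f := fun j => (σ' j.castSucc, k j, σ' j.succ)) hd hj
    · exact runL_map_mem (f := fun j => (σ' j.castSucc, k j, σ' j.succ)) hd' (mem_compl.2 hj)

/-- K7: changes of symbols which are not queried. -/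
theorem runL_congr {L : List (Fin S × ℕ × Fin S)} {c : List C} (h : RunL P I L c) {I' : C → X}
    (hI : ∀ z ∈ c, I' z = I z) : RunL P I' L c := by
  induction h with
  | nil => exact RunL.nil
  | cons s t k L c1 c2 h1 h2 _ ih =>
    exact RunL.cons s t k L c1 c2 (run_congr h1 fun z hz => (hI z (List.mem_append_left _ hz)).symm) h2
      (ih fun z hz => hI z (List.mem_append_right _ hz))

/-- K8: a list of pieces is cut into two. -/
theorem runL_append {L1 L2 : List (Fin S × ℕ × Fin S)} {c : List C} :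
    RunL P I (L1 ++ L2) c ↔ ∃ c1 c2, c = c1 ++ c2 ∧ RunL P I L1 c1 ∧ RunL P I L2 c2 := by
  constructor
  · intro h
    induction L1 generalizing c with
    | nil => exact ⟨[], c, rfl, RunL.nil, h⟩
    | cons p L1 ih =>
      obtain ⟨a, b, rfl, h1, h2, h3⟩ := runL_cons (by rwa [List.cons_append] at h)
      obtain ⟨c1, c2, rfl, h4, h5⟩ := ih h3
      exact ⟨a ++ c1, c2, (List.append_assoc _ _ _).symm, RunL.cons p.1 p.2.2 p.2.1 L1 a c1 h1 h2 h4, h5⟩
  · rintro ⟨c1, c2, rfl, h1, h2⟩
    induction h1 with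
    | nil => exact h2
    | cons s t k L a b g1 g2 _ ih =>
      rw [List.cons_append, List.append_assoc]
      exact RunL.cons s t k (L ++ L2) a (b ++ c2) g1 g2 ih

end runs

end Pool.Agent.Helper17.BT
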