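import Pool.Agent.Helper17.BT.RunL
import Pool.Agent.Helper99.BT.Defs

/-!
# BT, pieces K6, K9: states at the cuts and computations of deterministic programs are unique
-/

set_option autoImplicit false

namespace Pool.Agent.Helper17.BT

open Finset Pool.Agent.Helper74.NW Pool.Agent.Helper96.BT Pool.Agent.Helper99.BT
open Pool.Agent.Helper99.NK (times)
open Pool.Agent.Helper96.PH (Det)

section runs

variable {C X Z : Type} {S : ℕ} {P : NProg C X Z S} {I : C → X}

/-- K6. -/
theorem sigma_unique (hP : Det P) {J : ℕ} {b : ℕ → ℕ} {σ σ' : Fin (J + 1) → Fin S} {A : Finset (Fin J)}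
    {c c' d d' : List C} (h : RunL P I (sideb A b σ) c) (h' : RunL P I (sideb Aᶜ b σ) c')
    (hd : RunL P I (sideb A b σ') d) (hd' : RunL P I (sideb Aᶜ b σ') d') (h0 : σ 0 = σ' 0) : σ = σ' :=
  sigma_unique' hP (k := fun j => b (j.val + 1) - b j.val) h h' hd hd' h0

theorem ends_aux (hP : Det P) {s t t' : Fin S} {l l' : List C} {z z' : Z} (h : P.Run I s l t)
    (hz : P.act t = Sum.inr z) (h' : P.Run I s l' t') (hz' : P.act t' = Sum.inr z')
    (hl : l.length ≤ l'.length) : l = l' ∧ t = t' := by
  obtain ⟨r, hr1, hr2⟩ := run_split (l'.take l.length) (b := l'.drop l.length)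
    (by rw [List.take_append_drop]; exact h')
  obtain ⟨h1, h2⟩ := Pool.Agent.Helper98.PH.det_aux hP h hr1 (by rw [List.length_take]; omega)
  subst h2
  have h3 := Pool.Agent.Helper98.PH.run_final hr2 hz
  rw [h3] at hr2
  have h4 := List.take_append_drop l.length l'
  rw [h3, List.append_nil, ← h1] at h4
  exact ⟨h4, Pool.Agent.Helper98.PH.run_nil hr2⟩

theorem ends_aux' (hP : Det P) {s t t' : Fin S} {l l' : List C} {z z' : Z} (h : P.Run I s l t)
    (hz : P.act t = Sum.inr z) (h' : P.Run I s l' t') (hz' : P.act t' = Sum.inr z') : l = l' ∧ t = t' := by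
  rcases le_total l.length l'.length with hl | hl
  · exact ends_aux hP h hz h' hz' hl
  · obtain ⟨h1, h2⟩ := ends_aux hP h' hz' h hz hl
    exact ⟨h1.symm, h2.symm⟩

/-- K9: a deterministic program has at most one computation, and its length is less than `S`. -/
theorem ends_unique (hP : Det P) {l l' : List C} {z z' : Z} (h : P.Ends I l z) (h' : P.Ends I l' z') :
    l = l' ∧ z = z' ∧ l.length < S := by
  obtain ⟨t, ht, hz⟩ := h
  obtain ⟨t', ht', hz'⟩ := h'
  obtain ⟨h1, h2⟩ := ends_aux' hP ht hz ht' hz'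
  subst h2
  refine ⟨h1, Sum.inr.inj (hz.symm.trans hz'), run_short ht fun l'' hl'' => ?_⟩
  rw [(ends_aux' hP ht hz hl'' hz).1]

end runs

end Pool.Agent.Helper17.BT
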