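import Mathlib

/-!
# The second moment of the parts of the blocks left unread

`U1`, `U2`, `B` are finite abelian groups, the letters `x u t + φ u t l1 + ψ u t l2`, `(u, t) : ι × κ`, are such that any
four letters of every node `u` are jointly independent as functions of `l1` alone and as functions of `l2` alone.
-/

namespace Pool.Agent.Helper17.BT

open Finset

section fourier

theorem parseval {U : Type} [AddCommGroup U] [Fintype U] (P : Finset U) :
    ∑ χ : AddChar U ℂ, ‖∑ l ∈ P, χ l‖ ^ 2 = (Fintype.card U : ℝ) * P.card := by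
  classical
  have h1 : ∀ χ : AddChar U ℂ, ((‖∑ l ∈ P, χ l‖ ^ 2 : ℝ) : ℂ) = ∑ l ∈ P, ∑ l' ∈ P, χ (l - l') := by
    intro χ
    have : ((‖∑ l ∈ P, χ l‖ ^ 2 : ℝ) : ℂ) = (∑ l ∈ P, χ l) * (starRingEnd ℂ) (∑ l ∈ P, χ l) := by
      rw [Complex.mul_conj, Complex.normSq_eq_norm_sq]
    rw [this, map_sum, Finset.sum_mul_sum]
    refine sum_congr rfl fun l _ => sum_congr rfl fun l' _ => ?_
    rw [← AddChar.map_neg_eq_conj, sub_eq_add_neg, AddChar.map_add_eq_mul]
  have h2 : ((∑ χ : AddChar U ℂ, ‖∑ l ∈ P, χ l‖ ^ 2 : ℝ) : ℂ) = (((Fintype.card U : ℝ) * P.card : ℝ) : ℂ) := by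
    rw [Complex.ofReal_sum, sum_congr rfl fun χ _ => h1 χ, sum_comm]
    have : ∀ l ∈ P, ∑ χ : AddChar U ℂ, ∑ l' ∈ P, χ (l - l') = (Fintype.card U : ℂ) := by
      intro l hl
      rw [sum_comm]
      simp only [AddChar.sum_apply_eq_ite, sub_eq_zero]
      rw [Finset.sum_ite_eq]
      simp [hl]
    rw [sum_congr rfl this]
    simp [mul_comm]
  exact_mod_cast h2

theorem bilinear {T U1 U2 : Type} [Fintype T] [AddCommGroup U1] [Fintype U1] [AddCommGroup U2] [Fintype U2]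
    (c : T → ℂ) (C : ℝ) (hc : ∀ θ, ‖c θ‖ ≤ C) (Φ : T → AddChar U1 ℂ) (Ψ : T → AddChar U2 ℂ)
    (hΦ : ∀ θ θ', c θ ≠ 0 → c θ' ≠ 0 → Φ θ = Φ θ' → θ = θ')
    (hΨ : ∀ θ θ', c θ ≠ 0 → c θ' ≠ 0 → Ψ θ = Ψ θ' → θ = θ') (hC : 0 ≤ C)
    (P : Finset U1) (Q : Finset U2) :
    ‖∑ θ, c θ * (∑ l ∈ P, Φ θ l) * (∑ l ∈ Q, Ψ θ l)‖ ≤ C * (Fintype.card U1 * Fintype.card U2) := by
  classical
  set S : Finset T := univ.filter fun θ => c θ ≠ 0 with hS
  have e1 : ∑ θ, c θ * (∑ l ∈ P, Φ θ l) * (∑ l ∈ Q, Ψ θ l) =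
      ∑ θ ∈ S, c θ * (∑ l ∈ P, Φ θ l) * (∑ l ∈ Q, Ψ θ l) := by
    refine (sum_subset (subset_univ S) fun θ _ hθ => ?_).symm
    have : c θ = 0 := by
      by_contra h
      exact hθ (by simp [hS, h])
    simp [this]
  have bes1 : ∑ θ ∈ S, ‖∑ l ∈ P, Φ θ l‖ ^ 2 ≤ (Fintype.card U1 : ℝ) ^ 2 := by
    have inj : Set.InjOn Φ S := by
      intro a ha b hb hab
      simp only [hS, coe_filter, mem_univ, true_and, Set.mem_ofPred_eq] at ha hb
      exact hΦ a b ha hb hab
    calc ∑ θ ∈ S, ‖∑ l ∈ P, Φ θ l‖ ^ 2 = ∑ χ ∈ S.image Φ, ‖∑ l ∈ P, χ l‖ ^ 2 :=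
          (sum_image (f := fun χ : AddChar U1 ℂ => ‖∑ l ∈ P, χ l‖ ^ 2) inj).symm
      _ ≤ ∑ χ : AddChar U1 ℂ, ‖∑ l ∈ P, χ l‖ ^ 2 :=
          sum_le_sum_of_subset_of_nonneg (subset_univ _) fun _ _ _ => by positivity
      _ = (Fintype.card U1 : ℝ) * P.card := parseval P
      _ ≤ (Fintype.card U1 : ℝ) ^ 2 := by
          rw [pow_two]
          exact mul_le_mul_of_nonneg_left (by exact_mod_cast card_le_univ P) (by positivity)
  have bes2 : ∑ θ ∈ S, ‖∑ l ∈ Q, Ψ θ l‖ ^ 2 ≤ (Fintype.card U2 : ℝ) ^ 2 := by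
    have inj : Set.InjOn Ψ S := by
      intro a ha b hb hab
      simp only [hS, coe_filter, mem_univ, true_and, Set.mem_ofPred_eq] at ha hb
      exact hΨ a b ha hb hab
    calc ∑ θ ∈ S, ‖∑ l ∈ Q, Ψ θ l‖ ^ 2 = ∑ χ ∈ S.image Ψ, ‖∑ l ∈ Q, χ l‖ ^ 2 :=
          (sum_image (f := fun χ : AddChar U2 ℂ => ‖∑ l ∈ Q, χ l‖ ^ 2) inj).symm
      _ ≤ ∑ χ : AddChar U2 ℂ, ‖∑ l ∈ Q, χ l‖ ^ 2 :=
          sum_le_sum_of_subset_of_nonneg (subset_univ _) fun _ _ _ => by positivity
      _ = (Fintype.card U2 : ℝ) * Q.card := parseval Q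
      _ ≤ (Fintype.card U2 : ℝ) ^ 2 := by
          rw [pow_two]
          exact mul_le_mul_of_nonneg_left (by exact_mod_cast card_le_univ Q) (by positivity)
  have cs : ∑ θ ∈ S, ‖∑ l ∈ P, Φ θ l‖ * ‖∑ l ∈ Q, Ψ θ l‖ ≤ (Fintype.card U1 : ℝ) * Fintype.card U2 := by
    have h := sum_mul_sq_le_sq_mul_sq S (fun θ => ‖∑ l ∈ P, Φ θ l‖) (fun θ => ‖∑ l ∈ Q, Ψ θ l‖)
    have h' : (∑ θ ∈ S, ‖∑ l ∈ P, Φ θ l‖ * ‖∑ l ∈ Q, Ψ θ l‖) ^ 2 ≤
        ((Fintype.card U1 : ℝ) * Fintype.card U2) ^ 2 := by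
      refine h.trans ?_
      rw [mul_pow]
      exact mul_le_mul bes1 bes2 (by positivity) (by positivity)
    exact le_of_sq_le_sq h' (by positivity)
  rw [e1]
  calc ‖∑ θ ∈ S, c θ * (∑ l ∈ P, Φ θ l) * (∑ l ∈ Q, Ψ θ l)‖
      ≤ ∑ θ ∈ S, ‖c θ * (∑ l ∈ P, Φ θ l) * (∑ l ∈ Q, Ψ θ l)‖ := norm_sum_le _ _
    _ ≤ ∑ θ ∈ S, C * (‖∑ l ∈ P, Φ θ l‖ * ‖∑ l ∈ Q, Ψ θ l‖) := by
        refine sum_le_sum fun θ _ => ?_
        rw [norm_mul, norm_mul, mul_assoc]
        exact mul_le_mul_of_nonneg_right (hc θ) (by positivity)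
    _ = C * ∑ θ ∈ S, ‖∑ l ∈ P, Φ θ l‖ * ‖∑ l ∈ Q, Ψ θ l‖ := by rw [mul_sum]
    _ ≤ C * (Fintype.card U1 * Fintype.card U2) := mul_le_mul_of_nonneg_left cs hC

variable {B κ : Type} [AddCommGroup B] [Fintype B] [DecidableEq B] [Fintype κ] [DecidableEq κ]

/-- Fourier coefficient of a function of the letters of one node. -/
noncomputable def coef (F : (κ → B) → ℂ) (θ : κ → AddChar B ℂ) : ℂ :=
  (∑ β : κ → B, F β * ∏ s, θ s (-(β s))) / (Fintype.card B : ℂ) ^ Fintype.card κ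

theorem inversion (F : (κ → B) → ℂ) (β : κ → B) :
    F β = ∑ θ : κ → AddChar B ℂ, coef F θ * ∏ s, θ s (β s) := by
  classical
  have hk : ((Fintype.card B : ℂ) ^ Fintype.card κ) ≠ 0 :=
    pow_ne_zero _ (Nat.cast_ne_zero.2 Fintype.card_ne_zero)
  have h1 : ∀ γ : κ → B, ∑ θ : κ → AddChar B ℂ, ∏ s, (θ s (-(γ s)) * θ s (β s)) =
      if β = γ then (Fintype.card B : ℂ) ^ Fintype.card κ else 0 := by
    intro γ
    have e := (Finset.prod_univ_sum (fun _ : κ => (univ : Finset (AddChar B ℂ)))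
      (fun s χ => χ (-(γ s)) * χ (β s))).symm
    rw [Fintype.piFinset_univ] at e
    rw [e]
    have : ∀ s, ∑ χ : AddChar B ℂ, χ (-(γ s)) * χ (β s) = if β s = γ s then (Fintype.card B : ℂ) else 0 := by
      intro s
      have : ∀ χ : AddChar B ℂ, χ (-(γ s)) * χ (β s) = χ (β s - γ s) := by
        intro χ
        rw [sub_eq_add_neg, AddChar.map_add_eq_mul, mul_comm]
      simp only [this, AddChar.sum_apply_eq_ite, sub_eq_zero]
    simp only [this]
    by_cases h : β = γ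
    · subst h
      simp
    · rw [if_neg h]
      obtain ⟨s, hs⟩ := Function.ne_iff.1 h
      exact prod_eq_zero (mem_univ s) (by simp [hs])
  have h2 : ∑ θ : κ → AddChar B ℂ, coef F θ * ∏ s, θ s (β s) =
      (∑ γ : κ → B, F γ * ∑ θ : κ → AddChar B ℂ, ∏ s, (θ s (-(γ s)) * θ s (β s))) /
        (Fintype.card B : ℂ) ^ Fintype.card κ := by
    simp only [coef, div_mul_eq_mul_div, sum_mul, mul_sum, ← sum_div]
    rw [sum_comm]
    congr 1
    refine sum_congr rfl fun γ _ => sum_congr rfl fun θ _ => ?_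
    rw [prod_mul_distrib]
    ring
  rw [h2]
  simp only [h1, mul_ite, mul_zero, sum_ite_eq, mem_univ, if_true]
  rw [mul_div_assoc, div_self hk, mul_one]

theorem coef_prod (f : κ → B → ℂ) (θ : κ → AddChar B ℂ) :
    coef (fun β => ∏ s, f s (β s)) θ = ∏ s, ((∑ y, f s y * θ s (-y)) / Fintype.card B) := by
  classical
  have e := (Finset.prod_univ_sum (fun _ : κ => (univ : Finset B)) (fun s y => f s y * θ s (-y))).symm
  rw [Fintype.piFinset_univ] at e
  simp only [coef]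
  rw [prod_div_distrib, prod_const, ← e, card_univ]
  congr 1
  exact sum_congr rfl fun β _ => by rw [prod_mul_distrib]

/-- The centred indicator. -/
noncomputable def ee (b y : B) : ℂ := (if y = b then 1 else 0) - 1 / (Fintype.card B : ℂ)

theorem sum_ee (b : B) : ∑ y, ee b y = 0 := by
  have hk : (Fintype.card B : ℂ) ≠ 0 := Nat.cast_ne_zero.2 Fintype.card_ne_zero
  simp only [ee, sum_sub_distrib, sum_ite_eq', mem_univ, if_true, sum_const, card_univ, nsmul_eq_mul]
  field_simp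
  simp

theorem norm_ee_le (b y : B) : ‖ee b y‖ ≤ (if y = b then 1 else 0) + 1 / (Fintype.card B : ℝ) := by
  refine (norm_sub_le _ _).trans ?_
  gcongr
  · split_ifs <;> simp
  · simp

theorem sum_norm_ee (y : B) : ∑ b, ‖ee b y‖ ≤ 2 := by
  have hk : (Fintype.card B : ℝ) ≠ 0 := Nat.cast_ne_zero.2 Fintype.card_ne_zero
  refine (sum_le_sum fun b _ => norm_ee_le b y).trans ?_
  rw [sum_add_distrib, sum_const, card_univ, nsmul_eq_mul, sum_ite_eq]
  simp only [mem_univ, if_true]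
  rw [mul_one_div_cancel hk]
  norm_num

/-- The bound of the coefficients. -/
noncomputable def cc (κ : Type) [Fintype κ] (b b' : B) : ℝ :=
  2 / (Fintype.card B : ℝ) ^ 2 + Fintype.card κ * ((∑ y, ‖ee b y‖ * ‖ee b' y‖) / Fintype.card B)

theorem cc_nonneg (b b' : B) : 0 ≤ cc κ b b' := by
  unfold cc
  positivity

theorem sum_cc [Nonempty κ] : ∑ b : B, ∑ b' : B, cc κ b b' ≤ 6 * Fintype.card κ := by
  have hk : (0 : ℝ) < Fintype.card B := Nat.cast_pos.2 Fintype.card_pos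
  have hm : (1 : ℝ) ≤ Fintype.card κ := by exact_mod_cast Fintype.card_pos (α := κ)
  have h1 : ∑ b : B, ∑ b' : B, (∑ y, ‖ee b y‖ * ‖ee b' y‖) ≤ 4 * Fintype.card B := by
    have : ∑ b : B, ∑ b' : B, (∑ y, ‖ee b y‖ * ‖ee b' y‖) = ∑ y : B, (∑ b : B, ‖ee b y‖) * (∑ b' : B, ‖ee b' y‖) := by
      calc ∑ b : B, ∑ b' : B, (∑ y, ‖ee b y‖ * ‖ee b' y‖)
          = ∑ b : B, ∑ y, ∑ b' : B, ‖ee b y‖ * ‖ee b' y‖ := sum_congr rfl fun b _ => sum_comm
        _ = ∑ y, ∑ b : B, ∑ b' : B, ‖ee b y‖ * ‖ee b' y‖ := sum_comm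
        _ = _ := sum_congr rfl fun y _ => by rw [sum_mul_sum]
    rw [this]
    calc ∑ y : B, (∑ b, ‖ee b y‖) * (∑ b', ‖ee b' y‖) ≤ ∑ _y : B, (2 * 2 : ℝ) :=
          sum_le_sum fun y _ => mul_le_mul (sum_norm_ee y) (sum_norm_ee y) (by positivity) (by norm_num)
      _ = 4 * Fintype.card B := by rw [sum_const, card_univ, nsmul_eq_mul]; ring
  have h2 : ∑ b : B, ∑ b' : B, cc κ b b' = 2 + Fintype.card κ *
      ((∑ b : B, ∑ b' : B, (∑ y, ‖ee b y‖ * ‖ee b' y‖)) / Fintype.card B) := by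
    simp only [cc, sum_add_distrib, sum_const, card_univ, nsmul_eq_mul, ← mul_sum, ← sum_div]
    congr 1
    field_simp
  rw [h2]
  have h3 : (∑ b : B, ∑ b' : B, (∑ y, ‖ee b y‖ * ‖ee b' y‖)) / Fintype.card B ≤ 4 :=
    (div_le_iff₀ hk).2 h1
  nlinarith [mul_le_mul_of_nonneg_left h3 (zero_le_one.trans hm)]

/-- The product of the two sums over the letters of one node. -/
noncomputable def gg (b b' : B) (β : κ → B) : ℂ := (∑ t, ee b (β t)) * ∑ t, ee b' (β t)

/-- The factors of one summand of `gg`. -/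
noncomputable def ff (b b' : B) (t t' s : κ) (y : B) : ℂ :=
  (if s = t then ee b y else 1) * (if s = t' then ee b' y else 1)

theorem prod_ff (b b' : B) (t t' : κ) (β : κ → B) :
    ∏ s, ff b b' t t' s (β s) = ee b (β t) * ee b' (β t') := by
  simp only [ff, prod_mul_distrib, prod_ite_eq', mem_univ, if_true]

theorem coef_gg (b b' : B) (θ : κ → AddChar B ℂ) : coef (gg b b') θ =
    ∑ t, ∑ t', ∏ s, ((∑ y, ff b b' t t' s y * θ s (-y)) / Fintype.card B) := by
  have h : ∀ t t', ∏ s, ((∑ y, ff b b' t t' s y * θ s (-y)) / (Fintype.card B : ℂ)) =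
      coef (fun β : κ → B => ee b (β t) * ee b' (β t')) θ := by
    intro t t'
    rw [← coef_prod]
    simp only [prod_ff]
  simp only [h, coef, gg, ← sum_div]
  congr 1
  rw [sum_congr rfl fun t _ => sum_comm, sum_comm]
  refine sum_congr rfl fun β _ => ?_
  rw [sum_mul_sum, sum_mul]
  exact sum_congr rfl fun t _ => by rw [sum_mul]

theorem sum_neg (θ : AddChar B ℂ) : ∑ y, θ (-y) = if θ = 0 then (Fintype.card B : ℂ) else 0 := by
  rw [← AddChar.sum_eq_ite θ]
  exact Equiv.sum_comp (Equiv.neg B) θ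

theorem fac_zero {b : B} : (∑ y, ee b y * (0 : AddChar B ℂ) (-y)) = 0 := by
  simp [sum_ee]

theorem fac_norm {b : B} (θ : AddChar B ℂ) : ‖(∑ y, ee b y * θ (-y)) / (Fintype.card B : ℂ)‖ ≤
    1 / (Fintype.card B : ℝ) := by
  have hk : (0 : ℝ) < Fintype.card B := Nat.cast_pos.2 Fintype.card_pos
  by_cases h : θ = 0
  · subst h
    rw [fac_zero, zero_div, norm_zero]
    positivity
  · have : ∑ y, ee b y * θ (-y) = θ (-b) := by
      simp only [ee, sub_mul, sum_sub_distrib, ite_mul, one_mul, zero_mul, sum_ite_eq', mem_univ, if_true,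
        ← mul_sum, sum_neg, if_neg h, mul_zero, sub_zero]
    rw [this, norm_div, AddChar.norm_apply, Complex.norm_natCast]

/-- The letters with a nontrivial character. -/
noncomputable def supp (θ : κ → AddChar B ℂ) : Finset κ := univ.filter fun s => θ s ≠ 0

theorem mem_supp {θ : κ → AddChar B ℂ} {s : κ} : s ∈ supp θ ↔ θ s ≠ 0 := by simp [supp]

theorem term_ne (b b' : B) {t t' : κ} (hne : t ≠ t') (θ : κ → AddChar B ℂ) :
    ‖∏ s, ((∑ y, ff b b' t t' s y * θ s (-y)) / (Fintype.card B : ℂ))‖ ≤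
      if supp θ = {t, t'} then 1 / (Fintype.card B : ℝ) ^ 2 else 0 := by
  have hk : (Fintype.card B : ℂ) ≠ 0 := Nat.cast_ne_zero.2 Fintype.card_ne_zero
  have hk' : (0 : ℝ) < Fintype.card B := Nat.cast_pos.2 Fintype.card_pos
  have e1 : ∀ y, ff b b' t t' t y = ee b y := fun y => by simp [ff, hne]
  have e2 : ∀ y, ff b b' t t' t' y = ee b' y := fun y => by simp [ff, hne.symm]
  have e3 : ∀ s, s ≠ t → s ≠ t' → ∀ y, ff b b' t t' s y = 1 := fun s h h' y => by simp [ff, h, h']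
  split_ifs with h
  · have hb : ∀ s ∈ (univ : Finset κ), ‖(∑ y, ff b b' t t' s y * θ s (-y)) / (Fintype.card B : ℂ)‖ ≤
        (if s = t then 1 / (Fintype.card B : ℝ) else 1) * (if s = t' then 1 / (Fintype.card B : ℝ) else 1) := by
      intro s _
      by_cases h1 : s = t
      · subst h1
        simp only [e1, if_neg hne, mul_one]
        exact fac_norm _
      · by_cases h2 : s = t'
        · subst h2
          simp only [e2, if_neg h1, one_mul]
          exact fac_norm _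
        · simp only [e3 s h1 h2, if_neg h1, if_neg h2, one_mul, sum_neg]
          split_ifs
          · rw [div_self hk]
            simp
          · simp
    rw [norm_prod]
    refine (prod_le_prod (fun _ _ => norm_nonneg _) hb).trans (le_of_eq ?_)
    simp only [prod_mul_distrib, prod_ite_eq', mem_univ, if_true]
    field_simp
  · have : ∃ s, (∑ y, ff b b' t t' s y * θ s (-y)) / (Fintype.card B : ℂ) = 0 := by
      by_contra hcon
      push Not at hcon
      refine h (ext fun s => ?_)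
      rw [mem_supp, mem_insert, mem_singleton]
      constructor
      · intro hs
        by_contra hs'
        rw [not_or] at hs'
        refine hcon s ?_
        simp only [e3 s hs'.1 hs'.2, one_mul, sum_neg, if_neg hs, zero_div]
      · rintro (rfl | rfl) h0
        · refine hcon s ?_
          simp only [e1, h0, fac_zero, zero_div]
        · refine hcon s ?_
          simp only [e2, h0, fac_zero, zero_div]
    obtain ⟨s, hs⟩ := this
    rw [prod_eq_zero (mem_univ s) hs, norm_zero]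

theorem term_eq (b b' : B) (t : κ) (θ : κ → AddChar B ℂ) :
    ‖∏ s, ((∑ y, ff b b' t t s y * θ s (-y)) / (Fintype.card B : ℂ))‖ ≤
      if supp θ ⊆ {t} then (∑ y, ‖ee b y‖ * ‖ee b' y‖) / (Fintype.card B : ℝ) else 0 := by
  have hk : (Fintype.card B : ℂ) ≠ 0 := Nat.cast_ne_zero.2 Fintype.card_ne_zero
  have hk' : (0 : ℝ) < Fintype.card B := Nat.cast_pos.2 Fintype.card_pos
  have e1 : ∀ y, ff b b' t t t y = ee b y * ee b' y := fun y => by simp [ff]
  have e3 : ∀ s, s ≠ t → ∀ y, ff b b' t t s y = 1 := fun s h y => by simp [ff, h]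
  split_ifs with h
  · have hb : ∀ s ∈ (univ : Finset κ), ‖(∑ y, ff b b' t t s y * θ s (-y)) / (Fintype.card B : ℂ)‖ ≤
        (if s = t then (∑ y, ‖ee b y‖ * ‖ee b' y‖) / (Fintype.card B : ℝ) else 1) := by
      intro s _
      by_cases h1 : s = t
      · subst h1
        simp only [e1]
        rw [norm_div, Complex.norm_natCast]
        refine div_le_div_of_nonneg_right ((norm_sum_le _ _).trans (sum_le_sum fun y _ => ?_)) hk'.le
        rw [norm_mul, norm_mul, AddChar.norm_apply, mul_one]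
      · simp only [e3 s h1, if_neg h1, one_mul, sum_neg]
        split_ifs
        · rw [div_self hk]
          simp
        · simp
    rw [norm_prod]
    refine (prod_le_prod (fun _ _ => norm_nonneg _) hb).trans (le_of_eq ?_)
    simp only [prod_ite_eq', mem_univ, if_true]
  · rw [subset_singleton_iff', not_forall] at h
    obtain ⟨s, hs⟩ := h
    rw [not_forall] at hs
    obtain ⟨hs, hst⟩ := hs
    have : (∑ y, ff b b' t t s y * θ s (-y)) / (Fintype.card B : ℂ) = 0 := by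
      simp only [e3 s hst, one_mul, sum_neg, if_neg (mem_supp.1 hs), zero_div]
    rw [prod_eq_zero (mem_univ s) this, norm_zero]

theorem coef_bound (b b' : B) (θ : κ → AddChar B ℂ) : ‖coef (gg b b') θ‖ ≤ cc κ b b' := by
  have hk' : (0 : ℝ) < Fintype.card B := Nat.cast_pos.2 Fintype.card_pos
  set μ : ℝ := (∑ y, ‖ee b y‖ * ‖ee b' y‖) / (Fintype.card B : ℝ) with hμ
  have hμ0 : 0 ≤ μ := by positivity
  have h1 : ∀ t t', ‖∏ s, ((∑ y, ff b b' t t' s y * θ s (-y)) / (Fintype.card B : ℂ))‖ ≤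
      (if t = t' then μ else 0) + (if t ≠ t' ∧ supp θ = {t, t'} then 1 / (Fintype.card B : ℝ) ^ 2 else 0) := by
    intro t t'
    by_cases h : t = t'
    · subst h
      refine (term_eq b b' t θ).trans ?_
      simp only [ne_eq, not_true, false_and, if_false, add_zero]
      split_ifs
      · exact le_rfl
      · exact hμ0
    · refine (term_ne b b' h θ).trans (le_of_eq ?_)
      simp [h]
  rw [coef_gg]
  calc ‖∑ t, ∑ t', ∏ s, ((∑ y, ff b b' t t' s y * θ s (-y)) / (Fintype.card B : ℂ))‖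
      ≤ ∑ t, ∑ t', ‖∏ s, ((∑ y, ff b b' t t' s y * θ s (-y)) / (Fintype.card B : ℂ))‖ :=
        (norm_sum_le _ _).trans (sum_le_sum fun t _ => norm_sum_le _ _)
    _ ≤ ∑ t, ∑ t', ((if t = t' then μ else 0) +
          (if t ≠ t' ∧ supp θ = {t, t'} then 1 / (Fintype.card B : ℝ) ^ 2 else 0)) :=
        sum_le_sum fun t _ => sum_le_sum fun t' _ => h1 t t'
    _ = Fintype.card κ * μ + ((univ.filter fun p : κ × κ => p.1 ≠ p.2 ∧ supp θ = {p.1, p.2}).card : ℝ) *
          (1 / (Fintype.card B : ℝ) ^ 2) := by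
        simp only [sum_add_distrib, sum_ite_eq, mem_univ, if_true, sum_const, card_univ, nsmul_eq_mul]
        congr 1
        rw [← Fintype.sum_prod_type' (f := fun t t' => if t ≠ t' ∧ supp θ = {t, t'} then
          1 / (Fintype.card B : ℝ) ^ 2 else 0), ← sum_filter, sum_const, nsmul_eq_mul]
    _ ≤ Fintype.card κ * μ + 2 * (1 / (Fintype.card B : ℝ) ^ 2) := by
        gcongr
        have : (univ.filter fun p : κ × κ => p.1 ≠ p.2 ∧ supp θ = {p.1, p.2}).card ≤ 2 := by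
          rcases (univ.filter fun p : κ × κ => p.1 ≠ p.2 ∧ supp θ = {p.1, p.2}).eq_empty_or_nonempty with h | ⟨q, hq⟩
          · rw [h]
            simp
          · refine (card_le_card (t := {q, q.swap}) fun p hp => ?_).trans card_le_two
            simp only [mem_filter, mem_univ, true_and] at hq hp
            have e : ({p.1, p.2} : Finset κ) = {q.1, q.2} := hp.2.symm.trans hq.2
            have m1 : p.1 ∈ ({q.1, q.2} : Finset κ) := e ▸ mem_insert_self _ _
            have m2 : p.2 ∈ ({q.1, q.2} : Finset κ) := e ▸ mem_insert_of_mem (mem_singleton_self _)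
            simp only [mem_insert, mem_singleton] at m1 m2 ⊢
            rcases m1 with m1 | m1 <;> rcases m2 with m2 | m2
            · exact absurd (m1.trans m2.symm) hp.1
            · exact Or.inl (Prod.ext m1 m2)
            · exact Or.inr (Prod.ext m1 m2)
            · exact absurd (m1.trans m2.symm) hp.1
        exact_mod_cast this
    _ = cc κ b b' := by
        rw [cc, hμ]
        ring

theorem coef_zero (b b' : B) (θ : κ → AddChar B ℂ) (h : 2 < (supp θ).card) : coef (gg b b') θ = 0 := by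
  rw [coef_gg]
  refine sum_eq_zero fun t _ => sum_eq_zero fun t' _ => ?_
  rw [← norm_le_zero_iff]
  by_cases ht : t = t'
  · subst ht
    refine (term_eq b b' t θ).trans (le_of_eq (if_neg fun hs => ?_))
    have := card_le_card hs
    rw [card_singleton] at this
    omega
  · refine (term_ne b b' ht θ).trans (le_of_eq (if_neg fun hs => ?_))
    have := card_le_two (a := t) (b := t')
    rw [← hs] at this
    omega

end fourier

section main

variable {ι κ B W U1 U2 : Type} [Fintype ι] [DecidableEq ι] [Fintype κ] [DecidableEq κ] [AddCommGroup B] [Fintype B]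
  [DecidableEq B] [Fintype W] [DecidableEq W] [AddCommGroup U1] [Fintype U1] [AddCommGroup U2] [Fintype U2]

/-- The character of `U1` given by characters of the letters. -/
noncomputable def pull {U : Type} [AddCommGroup U] (φ : ι → κ → U →+ B) (θ : ι → κ → AddChar B ℂ) : AddChar U ℂ :=
  ∏ u, ∏ t, (θ u t).compAddMonoidHom (φ u t)

theorem pull_apply {U : Type} [AddCommGroup U] (φ : ι → κ → U →+ B) (θ : ι → κ → AddChar B ℂ) (l : U) :
    pull φ θ l = ∏ u, ∏ t, θ u t (φ u t l) := by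
  simp only [pull, AddChar.prod_apply, AddChar.compAddMonoidHom_apply]

/-- Any four letters of every node are jointly independent. -/
def Indep {U : Type} [AddCommGroup U] (φ : ι → κ → U →+ B) : Prop :=
  ∀ T : ι → Finset κ, (∀ u, (T u).card ≤ 4) → ∀ y : ι → κ → B, ∃ l, ∀ u, ∀ t ∈ T u, φ u t l = y u t

theorem pull_inj {U : Type} [AddCommGroup U] {φ : ι → κ → U →+ B} (hφ : Indep φ) {θ θ' : ι → κ → AddChar B ℂ}
    (h : ∀ u, (supp (θ u)).card ≤ 2) (h' : ∀ u, (supp (θ' u)).card ≤ 2) (he : pull φ θ = pull φ θ') : θ = θ' := by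
  have hT : ∀ u, (supp (θ u) ∪ supp (θ' u)).card ≤ 4 := fun u => (card_union_le _ _).trans (by
    have := h u
    have := h' u
    omega)
  funext u0 t0
  by_cases hm : t0 ∈ supp (θ u0) ∪ supp (θ' u0)
  · ext b
    obtain ⟨l, hl⟩ := hφ (fun u => supp (θ u) ∪ supp (θ' u)) hT (fun u t => if u = u0 ∧ t = t0 then b else 0)
    have key : ∀ θ'' : ι → κ → AddChar B ℂ, (∀ u, supp (θ'' u) ⊆ supp (θ u) ∪ supp (θ' u)) →
        pull φ θ'' l = θ'' u0 t0 b := by
      intro θ'' hs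
      rw [pull_apply, prod_eq_single u0, prod_eq_single t0]
      · rw [hl u0 t0 hm, if_pos ⟨rfl, rfl⟩]
      · intro t _ ht
        by_cases h0 : θ'' u0 t = 0
        · rw [h0]
          rfl
        · rw [hl u0 t (hs u0 (mem_supp.2 h0)), if_neg (fun h => ht h.2), AddChar.map_zero_eq_one]
      · simp
      · intro u _ hu
        refine prod_eq_one fun t _ => ?_
        by_cases h0 : θ'' u t = 0
        · rw [h0]
          rfl
        · rw [hl u t (hs u (mem_supp.2 h0)), if_neg (fun h => hu h.1), AddChar.map_zero_eq_one]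
      · simp
    rw [← key θ (fun u => subset_union_left), ← key θ' (fun u => subset_union_right), he]
  · rw [mem_union, not_or, mem_supp, mem_supp, not_not, not_not] at hm
    rw [hm.1, hm.2]

/-- The bound for one choice of the cells. -/
theorem kernel (x : ι → κ → B) (φ : ι → κ → U1 →+ B) (ψ : ι → κ → U2 →+ B) (hφ : Indep φ) (hψ : Indep ψ)
    (b b' : ι → B) (P : Finset U1) (Q : Finset U2) :
    ‖∑ l1 ∈ P, ∑ l2 ∈ Q, ∏ u, gg (b u) (b' u) (fun t => x u t + φ u t l1 + ψ u t l2)‖ ≤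
      (∏ u, cc κ (b u) (b' u)) * (Fintype.card U1 * Fintype.card U2) := by
  classical
  set c : (ι → κ → AddChar B ℂ) → ℂ := fun θ => (∏ u, coef (gg (b u) (b' u)) (θ u)) * ∏ u, ∏ t, θ u t (x u t)
    with hc
  have hexp : ∀ l1 l2, ∏ u, gg (b u) (b' u) (fun t => x u t + φ u t l1 + ψ u t l2) =
      ∑ θ : ι → κ → AddChar B ℂ, c θ * pull φ θ l1 * pull ψ θ l2 := by
    intro l1 l2
    have e := Finset.prod_univ_sum (fun _ : ι => (univ : Finset (κ → AddChar B ℂ)))
      (fun u θ => coef (gg (b u) (b' u)) θ * ∏ t, θ t (x u t + φ u t l1 + ψ u t l2))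
    rw [Fintype.piFinset_univ] at e
    rw [prod_congr rfl fun u _ => inversion (gg (b u) (b' u)) (fun t => x u t + φ u t l1 + ψ u t l2), e]
    refine sum_congr rfl fun θ _ => ?_
    simp only [hc, pull_apply, AddChar.map_add_eq_mul, prod_mul_distrib]
    ring
  have h1 : ∑ l1 ∈ P, ∑ l2 ∈ Q, ∏ u, gg (b u) (b' u) (fun t => x u t + φ u t l1 + ψ u t l2) =
      ∑ θ : ι → κ → AddChar B ℂ, c θ * (∑ l ∈ P, pull φ θ l) * (∑ l ∈ Q, pull ψ θ l) := by
    simp only [hexp]
    rw [sum_congr rfl fun l1 _ => sum_comm, sum_comm]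
    refine sum_congr rfl fun θ _ => ?_
    rw [mul_assoc, sum_mul_sum, mul_sum]
    refine sum_congr rfl fun l1 _ => ?_
    rw [mul_sum]
    exact sum_congr rfl fun l2 _ => by ring
  have hnz : ∀ θ, c θ ≠ 0 → ∀ u, (supp (θ u)).card ≤ 2 := by
    intro θ hθ u
    by_contra hcon
    rw [not_le] at hcon
    refine hθ ?_
    simp only [hc]
    rw [prod_eq_zero (mem_univ u) (coef_zero _ _ _ hcon), zero_mul]
  rw [h1]
  refine bilinear c _ (fun θ => ?_) (pull φ) (pull ψ) (fun θ θ' h h' he => pull_inj hφ (hnz θ h) (hnz θ' h') he)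
    (fun θ θ' h h' he => pull_inj hψ (hnz θ h) (hnz θ' h') he) (prod_nonneg fun u _ => cc_nonneg _ _) P Q
  simp only [hc]
  rw [norm_mul, norm_prod, norm_prod]
  have : ∏ u, ‖∏ t, θ u t (x u t)‖ = 1 := prod_eq_one fun u _ => by
    rw [norm_prod]
    exact prod_eq_one fun t _ => AddChar.norm_apply _ _
  rw [this, mul_one]
  exact prod_le_prod (fun _ _ => norm_nonneg _) fun u _ => coef_bound _ _ _

/-- The part of the block `β` in `V`, minus the part of everything. -/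
noncomputable def dev (V : Finset (B × W)) (β : B) : ℝ :=
  ((univ.filter fun w : W => (β, w) ∈ V).card : ℝ) / Fintype.card W -
    (V.card : ℝ) / (Fintype.card B * Fintype.card W)

theorem dev_eq (V : Finset (B × W)) (β : B) : ((dev V β : ℝ) : ℂ) =
    (∑ w : W, ∑ b : B, ee b β * if (b, w) ∈ V then 1 else 0) / Fintype.card W := by
  have h1 : ∑ w : W, ∑ b : B, ee b β * (if (b, w) ∈ V then (1 : ℂ) else 0) =
      ((univ.filter fun w : W => (β, w) ∈ V).card : ℂ) - (V.card : ℂ) / Fintype.card B := by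
    have hV : (V.card : ℂ) = ∑ w : W, ∑ b : B, if (b, w) ∈ V then (1 : ℂ) else 0 := by
      rw [sum_comm, ← Fintype.sum_prod_type' (f := fun b w => if (b, w) ∈ V then (1 : ℂ) else 0)]
      simp
    simp only [ee, sub_mul, sum_sub_distrib, ite_mul, one_mul, zero_mul, sum_ite_eq, mem_univ, if_true, ← mul_sum]
    rw [← hV]
    congr 1
    · simp
    · ring
  rw [h1, dev]
  push_cast
  rw [sub_div, div_div]

open Classical in
/-- The second moment. -/
theorem moment [Nonempty κ] (x : ι → κ → B) (φ : ι → κ → U1 →+ B) (ψ : ι → κ → U2 →+ B) (hφ : Indep φ)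
    (hψ : Indep ψ) (V1 : U2 → Finset (B × W)) (V2 : U1 → Finset (B × W)) :
    ∑ l1, ∑ l2, ∏ u, (∑ t, dev (V1 l2 ∩ V2 l1) (x u t + φ u t l1 + ψ u t l2)) ^ 2 ≤
      (6 * Fintype.card κ : ℝ) ^ Fintype.card ι * (Fintype.card U1 * Fintype.card U2) := by
  rcases isEmpty_or_nonempty W with hW | hW
  · have : ∀ (V : Finset (B × W)) β, dev V β = 0 := fun V β => by simp [dev]
    simp only [this, sum_const_zero, ne_eq, OfNat.ofNat_ne_zero, not_false_eq_true, zero_pow, prod_const, card_univ,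
      sum_const, nsmul_eq_mul]
    rcases Nat.eq_zero_or_pos (Fintype.card ι) with h | h
    · simp [h]
    · rw [zero_pow h.ne', mul_zero, mul_zero]
      positivity
  have hw : (Fintype.card W : ℂ) ≠ 0 := Nat.cast_ne_zero.2 Fintype.card_ne_zero
  have hw' : (0 : ℝ) < Fintype.card W := Nat.cast_pos.2 Fintype.card_pos
  -- the expansion
  have hsq : ∀ l1 l2 u, (((∑ t, dev (V1 l2 ∩ V2 l1) (x u t + φ u t l1 + ψ u t l2)) ^ 2 : ℝ) : ℂ) =
      ∑ d : (W × B) × (W × B), gg d.1.2 d.2.2 (fun t => x u t + φ u t l1 + ψ u t l2) / (Fintype.card W : ℂ) ^ 2 *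
        ((if (d.1.2, d.1.1) ∈ V1 l2 ∧ (d.2.2, d.2.1) ∈ V1 l2 then 1 else 0) *
          (if (d.1.2, d.1.1) ∈ V2 l1 ∧ (d.2.2, d.2.1) ∈ V2 l1 then 1 else 0)) := by
    intro l1 l2 u
    have e1 : (((∑ t, dev (V1 l2 ∩ V2 l1) (x u t + φ u t l1 + ψ u t l2)) : ℝ) : ℂ) =
        (∑ d : W × B, (∑ t, ee d.2 (x u t + φ u t l1 + ψ u t l2)) *
          (if (d.2, d.1) ∈ V1 l2 ∩ V2 l1 then (1 : ℂ) else 0)) / Fintype.card W := by
      rw [Complex.ofReal_sum, sum_congr rfl fun t _ => dev_eq _ _, ← sum_div]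
      congr 1
      rw [Fintype.sum_prod_type, sum_comm]
      refine sum_congr rfl fun w _ => ?_
      rw [sum_comm]
      exact sum_congr rfl fun b _ => by rw [sum_mul]
    rw [pow_two, Complex.ofReal_mul, e1, div_mul_div_comm, sum_mul_sum, sum_div,
      ← pow_two (Fintype.card W : ℂ)]
    refine Eq.trans ?_ (Fintype.sum_prod_type _).symm
    refine sum_congr rfl fun d _ => ?_
    rw [sum_div]
    refine sum_congr rfl fun d' _ => ?_
    simp only [gg, mem_inter]
    by_cases a1 : (d.2, d.1) ∈ V1 l2 <;> by_cases a2 : (d.2, d.1) ∈ V2 l1 <;>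
      by_cases a3 : (d'.2, d'.1) ∈ V1 l2 <;> by_cases a4 : (d'.2, d'.1) ∈ V2 l1 <;> simp [a1, a2, a3, a4]
  have hcast : ((∑ l1, ∑ l2, ∏ u, (∑ t, dev (V1 l2 ∩ V2 l1) (x u t + φ u t l1 + ψ u t l2)) ^ 2 : ℝ) : ℂ) =
      ∑ d : ι → (W × B) × (W × B), (∑ l1 ∈ univ.filter (fun l1 => ∀ u, ((d u).1.2, (d u).1.1) ∈ V2 l1 ∧
          ((d u).2.2, (d u).2.1) ∈ V2 l1),
        ∑ l2 ∈ univ.filter (fun l2 => ∀ u, ((d u).1.2, (d u).1.1) ∈ V1 l2 ∧ ((d u).2.2, (d u).2.1) ∈ V1 l2),
          ∏ u, gg (d u).1.2 (d u).2.2 (fun t => x u t + φ u t l1 + ψ u t l2)) /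
            ((Fintype.card W : ℂ) ^ 2) ^ Fintype.card ι := by
    rw [Complex.ofReal_sum]
    simp only [Complex.ofReal_sum, Complex.ofReal_prod, hsq]
    have e : ∀ l1 l2, ∏ u, ∑ d : (W × B) × (W × B),
        gg d.1.2 d.2.2 (fun t => x u t + φ u t l1 + ψ u t l2) / (Fintype.card W : ℂ) ^ 2 *
        ((if (d.1.2, d.1.1) ∈ V1 l2 ∧ (d.2.2, d.2.1) ∈ V1 l2 then 1 else 0) *
          (if (d.1.2, d.1.1) ∈ V2 l1 ∧ (d.2.2, d.2.1) ∈ V2 l1 then 1 else 0)) =
        ∑ d : ι → (W × B) × (W × B),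
          (∏ u, gg (d u).1.2 (d u).2.2 (fun t => x u t + φ u t l1 + ψ u t l2)) /
            ((Fintype.card W : ℂ) ^ 2) ^ Fintype.card ι *
          ((if ∀ u, ((d u).1.2, (d u).1.1) ∈ V1 l2 ∧ ((d u).2.2, (d u).2.1) ∈ V1 l2 then 1 else 0) *
            (if ∀ u, ((d u).1.2, (d u).1.1) ∈ V2 l1 ∧ ((d u).2.2, (d u).2.1) ∈ V2 l1 then 1 else 0)) := by
      intro l1 l2
      rw [Finset.prod_univ_sum, Fintype.piFinset_univ]
      refine sum_congr rfl fun d _ => ?_
      rw [prod_mul_distrib, prod_div_distrib, prod_const, card_univ, prod_mul_distrib]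
      congr 2
      · rw [prod_ite_zero]
        simp
      · rw [prod_ite_zero]
        simp
    simp only [e]
    rw [sum_congr rfl fun l1 _ => sum_comm, sum_comm]
    refine sum_congr rfl fun d _ => ?_
    rw [sum_filter, sum_div]
    refine sum_congr rfl fun l1 _ => ?_
    split_ifs with h
    · rw [sum_filter, sum_div]
      refine sum_congr rfl fun l2 _ => ?_
      split_ifs <;> simp
    · simp
  have hnorm : ‖((∑ l1, ∑ l2, ∏ u, (∑ t, dev (V1 l2 ∩ V2 l1) (x u t + φ u t l1 + ψ u t l2)) ^ 2 : ℝ) : ℂ)‖ ≤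
      ∑ d : ι → (W × B) × (W × B), (∏ u, cc κ (d u).1.2 (d u).2.2 / (Fintype.card W : ℝ) ^ 2) *
        (Fintype.card U1 * Fintype.card U2) := by
    rw [hcast]
    refine (norm_sum_le _ _).trans (sum_le_sum fun d _ => ?_)
    rw [norm_div, norm_pow, norm_pow, Complex.norm_natCast, prod_div_distrib, prod_const, card_univ,
      div_mul_eq_mul_div]
    exact div_le_div_of_nonneg_right (kernel x φ ψ hφ hψ _ _ _ _) (by positivity)
  have hsum : ∑ d : ι → (W × B) × (W × B), (∏ u, cc κ (d u).1.2 (d u).2.2 / (Fintype.card W : ℝ) ^ 2) ≤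
      (6 * Fintype.card κ : ℝ) ^ Fintype.card ι := by
    have e := (Finset.prod_univ_sum (fun _ : ι => (univ : Finset ((W × B) × (W × B))))
      (fun _ d => cc κ d.1.2 d.2.2 / (Fintype.card W : ℝ) ^ 2)).symm
    rw [Fintype.piFinset_univ] at e
    rw [e, prod_const, card_univ]
    have hone : ∑ d : (W × B) × (W × B), cc κ d.1.2 d.2.2 / (Fintype.card W : ℝ) ^ 2 =
        ∑ b : B, ∑ b' : B, cc κ b b' := by
      simp only [Fintype.sum_prod_type, ← sum_div]
      simp only [sum_const, card_univ, nsmul_eq_mul, ← mul_sum]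
      field_simp
    rw [hone]
    exact pow_le_pow_left₀ (sum_nonneg fun b _ => sum_nonneg fun b' _ => cc_nonneg b b') sum_cc _
  calc ∑ l1, ∑ l2, ∏ u, (∑ t, dev (V1 l2 ∩ V2 l1) (x u t + φ u t l1 + ψ u t l2)) ^ 2
      ≤ ‖((∑ l1, ∑ l2, ∏ u, (∑ t, dev (V1 l2 ∩ V2 l1) (x u t + φ u t l1 + ψ u t l2)) ^ 2 : ℝ) : ℂ)‖ := by
        rw [Complex.norm_real]
        exact le_abs_self _
    _ ≤ _ := hnorm
    _ = (∑ d : ι → (W × B) × (W × B), (∏ u, cc κ (d u).1.2 (d u).2.2 / (Fintype.card W : ℝ) ^ 2)) *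
          (Fintype.card U1 * Fintype.card U2) := by rw [sum_mul]
    _ ≤ _ := mul_le_mul_of_nonneg_right hsum (by positivity)

end main

end Pool.Agent.Helper17.BT
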